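import Mathlib

set_option autoImplicit false

/-! Systems of quadratic forms: totally isotropic subspaces of multiples of an anisotropic system. -/

namespace Pool.Agent.Q10.SU

open Module

universe u v

section

variable {K : Type u} [Field K] {V : Type v} [AddCommGroup V] [Module K V] {r : ℕ}

/-- the orthogonal sum of two copies of `q`, restricted to `B`, vanishes on a subspace of dimension
at least `dim B` -/
def Good (q : QuadraticMap K V (Fin r → K)) (B : Submodule K V) : Prop :=
  ∃ G : Submodule K (V × V), G ≤ B.prod B ∧ (∀ x ∈ G, q x.1 + q x.2 = 0) ∧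
    finrank K B ≤ finrank K G

lemma two_ne {K : Type u} [Field K] (hK : ∀ a : K, a * a ≠ -1) : (2 : K) ≠ 0 := by
  intro h
  apply hK 1
  linear_combination h

lemma sq_add_ne {K : Type u} [Field K] (hK : ∀ a : K, a * a ≠ -1) {a b : K}
    (h : a * a + b * b = 0) : a = 0 ∧ b = 0 := by
  have hb : b = 0 := by
    by_contra hb
    apply hK (a / b)
    field_simp
    linear_combination h
  rw [hb, mul_zero, add_zero] at h
  exact ⟨mul_self_eq_zero.1 h, hb⟩

variable [FiniteDimensional K V]

/-- the orthogonal complement -/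
def perp (q : QuadraticMap K V (Fin r → K)) (B : Submodule K V) : Submodule K V :=
  LinearMap.ker ((LinearMap.lcomp K (Fin r → K) B.subtype).comp q.polarBilin)

omit [FiniteDimensional K V] in
lemma mem_perp {q : QuadraticMap K V (Fin r → K)} {B : Submodule K V} {w : V} :
    w ∈ perp q B ↔ ∀ b ∈ B, QuadraticMap.polar q w b = 0 := by
  rw [perp, LinearMap.mem_ker]
  constructor
  · intro h b hb
    exact LinearMap.congr_fun h ⟨b, hb⟩
  · intro h
    ext1 b
    exact h b.1 b.2

lemma finrank_perp (q : QuadraticMap K V (Fin r → K)) (B : Submodule K V) :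
    finrank K V ≤ finrank K (perp q B) + r * finrank K B := by
  have h1 := LinearMap.finrank_range_add_finrank_ker
    ((LinearMap.lcomp K (Fin r → K) B.subtype).comp q.polarBilin)
  have h2 := Submodule.finrank_le
    (LinearMap.range ((LinearMap.lcomp K (Fin r → K) B.subtype).comp q.polarBilin))
  rw [Module.finrank_linearMap, Module.finrank_fin_fun] at h2
  have h3 : finrank K B * r = r * finrank K B := mul_comm _ _
  have h4 : finrank K (perp q B) = finrank K (LinearMap.ker
    ((LinearMap.lcomp K (Fin r → K) B.subtype).comp q.polarBilin)) := rfl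
  omega

omit [FiniteDimensional K V] in
lemma perp_disj (hK : ∀ a : K, a * a ≠ -1) {q : QuadraticMap K V (Fin r → K)}
    (hq : q.Anisotropic) {B : Submodule K V} {x : V} (h1 : x ∈ B) (h2 : x ∈ perp q B) : x = 0 := by
  apply hq
  have h3 := mem_perp.1 h2 x h1
  rw [QuadraticMap.polar_self] at h3
  have h4 : (2 : K) • q x = 0 := by
    rw [← h3, two_smul, two_smul]
  exact (smul_eq_zero.1 h4).resolve_left (two_ne hK)

/-- two more dimensions -/
lemma good_step (hK : ∀ a : K, a * a ≠ -1) {q : QuadraticMap K V (Fin r → K)}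
    (hq : q.Anisotropic) {B : Submodule K V} (hB : Good q B) {v w : V} (hv : v ∈ perp q B)
    (hw : w ∈ perp q B) (hvw : q v + q w = 0) (hne : ¬ (v = 0 ∧ w = 0)) :
    ∃ B' : Submodule K V, Good q B' ∧ finrank K B < finrank K B' := by
  obtain ⟨G, hG1, hG2, hG3⟩ := hB
  obtain ⟨f, hf⟩ : ∃ f : K × K →ₗ[K] V × V,
      ∀ a b : K, f (a, b) = (a • v + b • w, a • w - b • v) := by
    refine ⟨(LinearMap.fst K K K).smulRight ((v, w) : V × V) +
      (LinearMap.snd K K K).smulRight ((w, -v) : V × V), fun a b => ?_⟩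
    simp [sub_eq_add_neg]
  obtain ⟨g, hg⟩ : ∃ g : K × K →ₗ[K] V, ∀ a b : K, g (a, b) = a • v + b • w := by
    refine ⟨(LinearMap.fst K K K).smulRight v + (LinearMap.snd K K K).smulRight w, fun a b => ?_⟩
    simp
  have hzero : ∀ a b : K, a • v + b • w = 0 → a • w - b • v = 0 → a = 0 ∧ b = 0 := by
    intro a b h1 h2
    have h3 : (a * a + b * b) • v = 0 := by
      have : (a * a + b * b) • v = a • (a • v + b • w) - b • (a • w - b • v) := by
        rw [smul_add, smul_sub, smul_smul, smul_smul, smul_smul, smul_smul, add_smul, mul_comm b a]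
        abel
      rw [this, h1, h2, smul_zero, smul_zero, sub_zero]
    have h4 : (a * a + b * b) • w = 0 := by
      have : (a * a + b * b) • w = b • (a • v + b • w) + a • (a • w - b • v) := by
        rw [smul_add, smul_sub, smul_smul, smul_smul, smul_smul, smul_smul, add_smul, mul_comm b a]
        abel
      rw [this, h1, h2, smul_zero, smul_zero, add_zero]
    by_cases h5 : a * a + b * b = 0
    · exact sq_add_ne hK h5
    · exfalso
      exact hne ⟨(smul_eq_zero.1 h3).resolve_left h5, (smul_eq_zero.1 h4).resolve_left h5⟩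
  have hgW : ∀ a b : K, a • v + b • w ∈ perp q B := fun a b =>
    add_mem (Submodule.smul_mem _ _ hv) (Submodule.smul_mem _ _ hw)
  have hgW' : ∀ a b : K, a • w - b • v ∈ perp q B := fun a b =>
    sub_mem (Submodule.smul_mem _ _ hw) (Submodule.smul_mem _ _ hv)
  have hfinj : Function.Injective f := by
    rw [← LinearMap.ker_eq_bot, LinearMap.ker_eq_bot']
    rintro ⟨a, b⟩ h
    rw [hf, Prod.mk_eq_zero] at h
    obtain ⟨h1, h2⟩ := hzero a b h.1 h.2
    rw [h1, h2]
    rfl
  have hrf : finrank K (LinearMap.range f) = 2 := by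
    rw [LinearMap.finrank_range_of_inj hfinj, Module.finrank_prod, Module.finrank_self]
  have hrg : finrank K (LinearMap.range g) ≤ 2 := by
    refine (LinearMap.finrank_range_le g).trans ?_
    rw [Module.finrank_prod, Module.finrank_self]
  have hinf : G ⊓ LinearMap.range f = ⊥ := by
    rw [eq_bot_iff]
    rintro x ⟨hx1, ⟨⟨a, b⟩, hx2⟩⟩
    rw [hf] at hx2
    have h1 := hG1 hx1
    rw [← hx2, Submodule.mem_prod] at h1
    have h2 := perp_disj hK hq h1.1 (hgW a b)
    have h3 := perp_disj hK hq h1.2 (hgW' a b)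
    dsimp only at h2 h3
    rw [Submodule.mem_bot, ← hx2, h2, h3]
    rfl
  have hsum := Submodule.finrank_sup_add_finrank_inf_eq G (LinearMap.range f)
  rw [hinf, finrank_bot, hrf] at hsum
  have hBle := Submodule.finrank_add_le_finrank_add_finrank B (LinearMap.range g)
  -- orthogonality
  have horth : ∀ b ∈ B, ∀ x ∈ perp q B, q (b + x) = q b + q x := by
    intro b hb x hx
    rw [QuadraticMap.map_add (⇑q) b x, QuadraticMap.polar_comm, mem_perp.1 hx b hb, add_zero]
  have hgood : Good q (B ⊔ LinearMap.range g) := by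
    refine ⟨G ⊔ LinearMap.range f, ?_, ?_, ?_⟩
    · refine sup_le ?_ ?_
      · exact hG1.trans (Submodule.prod_mono le_sup_left le_sup_left)
      · rintro x ⟨⟨a, b⟩, rfl⟩
        rw [hf, Submodule.mem_prod]
        constructor
        · refine Submodule.mem_sup_right ⟨(a, b), ?_⟩
          rw [hg]
        · refine Submodule.mem_sup_right ⟨(-b, a), ?_⟩
          rw [hg]
          dsimp only
          rw [neg_smul]
          abel
    · intro x hx
      obtain ⟨y, hy, z, ⟨⟨a, b⟩, rfl⟩, rfl⟩ := Submodule.mem_sup.1 hx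
      have h1 := hG1 hy
      rw [Submodule.mem_prod] at h1
      rw [hf, Prod.fst_add, Prod.snd_add]
      dsimp only
      rw [horth _ h1.1 _ (hgW a b), horth _ h1.2 _ (hgW' a b)]
      have h2 := hG2 y hy
      have h3 : q (a • v + b • w) + q (a • w - b • v) = (a * a + b * b) • (q v + q w) := by
        rw [sub_eq_add_neg, ← neg_smul, QuadraticMap.map_add (⇑q) (a • v),
          QuadraticMap.map_add (⇑q) (a • w),
          QuadraticMap.map_smul, QuadraticMap.map_smul, QuadraticMap.map_smul,
          QuadraticMap.map_smul, QuadraticMap.polar_smul_left, QuadraticMap.polar_smul_right,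
          QuadraticMap.polar_smul_left, QuadraticMap.polar_smul_right,
          QuadraticMap.polar_comm q w v, smul_smul, smul_smul, smul_add, add_smul, add_smul,
          neg_mul_neg, mul_neg, neg_smul]
        abel
      rw [hvw, smul_zero] at h3
      calc q y.1 + q (a • v + b • w) + (q y.2 + q (a • w - b • v))
          = (q y.1 + q y.2) + (q (a • v + b • w) + q (a • w - b • v)) := by abel
        _ = 0 := by rw [h2, h3, add_zero]
    · have : finrank K (B ⊔ LinearMap.range g : Submodule K V) ≤ finrank K B + 2 := by omega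
      omega
  refine ⟨_, hgood, ?_⟩
  apply Submodule.finrank_lt_finrank_of_lt
  refine lt_of_le_of_ne le_sup_left fun heq => hne ?_
  have hv' : v ∈ B := by
    rw [heq]
    exact Submodule.mem_sup_right ⟨(1, 0), by rw [hg, one_smul, zero_smul, add_zero]⟩
  have hw' : w ∈ B := by
    rw [heq]
    exact Submodule.mem_sup_right ⟨(0, 1), by rw [hg, one_smul, zero_smul, zero_add]⟩
  exact ⟨perp_disj hK hq hv' hv, perp_disj hK hq hw' hw⟩

/-- a large subspace on which two copies of `q` are anisotropic -/
lemma exists_aniso (hK : ∀ a : K, a * a ≠ -1) {q : QuadraticMap K V (Fin r → K)}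
    (hq : q.Anisotropic) {t : ℕ} (ht : ∀ B, Good q B → finrank K B ≤ t) :
    ∃ W : Submodule K V, finrank K V ≤ finrank K W + r * t ∧
      ∀ v ∈ W, ∀ w ∈ W, q v + q w = 0 → v = 0 ∧ w = 0 := by
  classical
  obtain ⟨B, hB, hmax⟩ : ∃ B, Good q B ∧ ∀ B', Good q B' → finrank K B' ≤ finrank K B := by
    have h0 : ∃ B, Good q B ∧ finrank K B = 0 := by
      refine ⟨⊥, ⟨⊥, bot_le, ?_, ?_⟩, finrank_bot K V⟩
      · intro x hx
        rw [Submodule.mem_bot] at hx
        rw [hx]
        simp
      · rw [finrank_bot]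
        exact Nat.zero_le _
    obtain ⟨B, hB, hB'⟩ := Nat.findGreatest_spec
      (P := fun n => ∃ B, Good q B ∧ finrank K B = n) (Nat.zero_le t) h0
    refine ⟨B, hB, fun B' h' => ?_⟩
    rw [hB']
    exact Nat.le_findGreatest (ht B' h') ⟨B', h', rfl⟩
  refine ⟨perp q B, ?_, ?_⟩
  · refine (finrank_perp q B).trans ?_
    exact Nat.add_le_add_left (Nat.mul_le_mul_left _ (ht B hB)) _
  · intro v hv w hw hvw
    by_contra hne
    obtain ⟨B', h1, h2⟩ := good_step hK hq hB hv hw hvw hne
    have := hmax B' h1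
    omega

end

lemma finrank_comap {K : Type u} [Field K] {A B : Type v} [AddCommGroup A] [Module K A]
    [AddCommGroup B] [Module K B] [FiniteDimensional K A] [FiniteDimensional K B]
    (f : A →ₗ[K] B) (hf : Function.Injective f) (U : Submodule K B) :
    finrank K U + finrank K A ≤ finrank K (U.comap f) + finrank K B := by
  have h1 := Submodule.finrank_sup_add_finrank_inf_eq U (LinearMap.range f)
  have h2 := Submodule.finrank_le (U ⊔ LinearMap.range f)
  have h3 : finrank K (U ⊓ LinearMap.range f : Submodule K B) = finrank K (U.comap f) := by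
    have h5 : U ⊓ LinearMap.range f = (U.comap f).map f := by
      rw [Submodule.map_comap_eq, inf_comm]
    rw [h5]
    exact (LinearEquiv.finrank_eq (Submodule.equivMapOfInjective f hf (U.comap f))).symm
  have h4 : finrank K (LinearMap.range f) = finrank K A := LinearMap.finrank_range_of_inj hf
  omega

/-- totally isotropic subspaces of multiples of an anisotropic system by a power of two -/
theorem iso_bound {K : Type u} [Field K] (hK : ∀ a : K, a * a ≠ -1) {r t : ℕ}
    (ht : ∀ (V : Type u) [AddCommGroup V] [Module K V] [FiniteDimensional K V]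
      (q : QuadraticMap K V (Fin r → K)), q.Anisotropic → ∀ B, Good q B → finrank K B ≤ t)
    (k : ℕ) : ∀ (V : Type u) [AddCommGroup V] [Module K V] [FiniteDimensional K V]
      (q : QuadraticMap K V (Fin r → K)), q.Anisotropic → ∀ (ι : Type) [Fintype ι],
      Fintype.card ι = 2 ^ k → ∀ U : Submodule K (ι → V), (∀ x ∈ U, ∑ i, q (x i) = 0) →
      finrank K U + 2 * (r * t) ≤ 2 ^ (k + 1) * (r * t) := by
  induction k with
  | zero =>
    intro V _ _ _ q hq ι _ hι U hU
    rw [pow_zero, Fintype.card_eq_one_iff] at hι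
    obtain ⟨i0, hi0⟩ := hι
    have hbot : U = ⊥ := by
      rw [eq_bot_iff]
      intro x hx
      have h1 := hU x hx
      have h2 : q (x i0) = 0 := by
        have h3 : ∑ i, q (x i) = q (x i0) := by
          refine Finset.sum_eq_single_of_mem (f := fun i => q (x i)) i0 (Finset.mem_univ _) ?_
          intro j _ hj
          exact absurd (hi0 j) hj
        rw [← h3, h1]
      rw [Submodule.mem_bot]
      funext j
      rw [hi0 j]
      exact hq _ h2
    rw [hbot, finrank_bot, zero_add, zero_add, pow_one]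
  | succ k ih =>
    intro V _ _ _ q hq ι _ hι U hU
    obtain ⟨W, hW1, hW2⟩ := exists_aniso hK hq (ht V q hq)
    have hcard : Fintype.card ι = Fintype.card (Fin (2 ^ k) × Bool) := by
      rw [hι, Fintype.card_prod, Fintype.card_fin, Fintype.card_bool, pow_succ]
    have e : ι ≃ Fin (2 ^ k) × Bool := Fintype.equivOfCardEq hcard
    obtain ⟨p, hp⟩ : ∃ p : QuadraticMap K (W × W) (Fin r → K),
        ∀ x : W × W, p x = q x.1 + q x.2 :=
      ⟨(q.comp W.subtype).prod (q.comp W.subtype), fun x => by simp⟩
    have hpa : p.Anisotropic := by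
      rintro ⟨x, y⟩ hxy
      rw [hp] at hxy
      obtain ⟨h1, h2⟩ := hW2 x x.2 y y.2 hxy
      rw [Prod.mk_eq_zero]
      exact ⟨Subtype.ext h1, Subtype.ext h2⟩
    obtain ⟨Ψ, hΨ⟩ : ∃ Ψ : (Fin (2 ^ k) → W × W) →ₗ[K] (ι → V), ∀ f i,
        Ψ f i = if (e i).2 then ((f (e i).1).1 : V) else ((f (e i).1).2 : V) := by
      refine ⟨⟨⟨fun f i => if (e i).2 then ((f (e i).1).1 : V) else ((f (e i).1).2 : V), ?_⟩, ?_⟩,
        fun f i => rfl⟩
      · intro f g
        funext i
        by_cases h : (e i).2 <;> simp [h]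
      · intro c f
        funext i
        by_cases h : (e i).2 <;> simp [h]
    have hinj : Function.Injective Ψ := by
      intro f g hfg
      funext j
      have h1 := congrFun hfg (e.symm (j, true))
      have h2 := congrFun hfg (e.symm (j, false))
      rw [hΨ, hΨ] at h1 h2
      rw [Equiv.apply_symm_apply] at h1 h2
      refine Prod.ext (Subtype.ext ?_) (Subtype.ext ?_)
      · simpa using h1
      · simpa using h2
    have h1 := finrank_comap Ψ hinj U
    have h2 := ih (W × W) p hpa (Fin (2 ^ k)) (by simp) (U.comap Ψ) (by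
      intro f hf
      have h3 := hU _ (Submodule.mem_comap.1 hf)
      rw [← h3]
      have h4 : ∀ i, q (Ψ f i) = (fun x : Fin (2 ^ k) × Bool =>
          if x.2 then q (f x.1).1 else q (f x.1).2) (e i) := by
        intro i
        rw [hΨ]
        dsimp only
        by_cases h : (e i).2 <;> simp [h]
      symm
      refine ((Finset.sum_congr rfl fun i _ => h4 i).trans (Equiv.sum_comp e
        (fun x : Fin (2 ^ k) × Bool => if x.2 then q (f x.1).1 else q (f x.1).2))).trans ?_
      rw [Fintype.sum_prod_type]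
      refine Finset.sum_congr rfl fun j _ => ?_
      rw [hp, Fintype.sum_bool]
      simp)
    rw [Module.finrank_pi_fintype, Module.finrank_pi_fintype] at h1
    simp only [Module.finrank_prod, Finset.sum_const, Finset.card_univ, hι, Fintype.card_fin,
      smul_eq_mul] at h1
    have h5 : 2 ^ (k + 1) * finrank K V ≤ 2 ^ (k + 1) * (finrank K W + r * t) :=
      Nat.mul_le_mul_left _ hW1
    have h6 : 2 ^ (k + 1) * (finrank K W + r * t) =
        2 ^ k * (finrank K W + finrank K W) + 2 ^ (k + 1) * (r * t) := by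
      rw [pow_succ]; ring
    have h7 : 2 ^ (k + 1 + 1) * (r * t) = 2 ^ (k + 1) * (r * t) + 2 ^ (k + 1) * (r * t) := by
      rw [pow_succ (2 : ℕ) (k + 1)]; ring
    omega

/-- the bound -/
theorem dim_bound {K : Type u} [Field K] (hK : ∀ a : K, a * a ≠ -1) {r t : ℕ}
    (ht : ∀ (V : Type u) [AddCommGroup V] [Module K V] [FiniteDimensional K V]
      (q : QuadraticMap K V (Fin r → K)), q.Anisotropic → ∀ B, Good q B → finrank K B ≤ t)
    (V : Type u) [AddCommGroup V] [Module K V] [FiniteDimensional K V]
    (q : QuadraticMap K V (Fin r → K)) (hq : q.Anisotropic) (m : ℕ) (hm : 1 ≤ m)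
    (U : Submodule K (Fin m → V)) (hU : ∀ x ∈ U, ∑ i, q (x i) = 0)
    (hdim : m * finrank K V ≤ 2 * finrank K U) : finrank K V ≤ 4 * (r * t) := by
  by_contra hcon
  push Not at hcon
  obtain ⟨n, hn⟩ : ∃ n, n = finrank K V := ⟨_, rfl⟩
  rw [← hn] at hcon hdim
  obtain ⟨k, hk⟩ : ∃ k, k = m * n := ⟨_, rfl⟩
  obtain ⟨a, ha⟩ : ∃ a, a = 2 ^ k / m := ⟨_, rfl⟩
  have ha1 : a * m ≤ 2 ^ k := by rw [ha]; exact Nat.div_mul_le_self _ _
  have ha2 : 2 ^ k < (a + 1) * m := by
    rw [ha]
    have h1 := Nat.div_add_mod (2 ^ k) m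
    have h2 := Nat.mod_lt (2 ^ k) hm
    calc 2 ^ k = m * (2 ^ k / m) + 2 ^ k % m := h1.symm
      _ < m * (2 ^ k / m) + m := Nat.add_lt_add_left h2 _
      _ = (2 ^ k / m + 1) * m := by ring
  obtain ⟨J, hJ⟩ : ∃ J : (Fin a → U) →ₗ[K] ((Fin a × Fin m) ⊕ Fin (2 ^ k - a * m) → V),
      ∀ f, J f = Sum.elim (fun ij => (f ij.1 : Fin m → V) ij.2) (fun _ => 0) := by
    refine ⟨⟨⟨fun f => Sum.elim (fun ij => (f ij.1 : Fin m → V) ij.2) (fun _ => 0), ?_⟩, ?_⟩,
      fun f => rfl⟩
    · intro f g
      funext i
      rcases i with i | i <;> simp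
    · intro c f
      funext i
      rcases i with i | i <;> simp
  have hinj : Function.Injective J := by
    intro f g hfg
    rw [hJ, hJ] at hfg
    funext i
    refine Subtype.ext ?_
    funext j
    exact congrFun hfg (Sum.inl (i, j))
  have h1 := iso_bound hK ht k V q hq ((Fin a × Fin m) ⊕ Fin (2 ^ k - a * m)) (by
    rw [Fintype.card_sum, Fintype.card_prod, Fintype.card_fin, Fintype.card_fin, Fintype.card_fin]
    omega) (LinearMap.range J) (by
    rintro x ⟨f, rfl⟩
    rw [hJ, Fintype.sum_sum_type, Fintype.sum_prod_type]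
    simp only [Sum.elim_inl, Sum.elim_inr, QuadraticMap.map_zero, Finset.sum_const_zero, add_zero]
    refine Finset.sum_eq_zero fun i _ => ?_
    exact hU _ (f i).2)
  rw [LinearMap.finrank_range_of_inj hinj, Module.finrank_pi_fintype] at h1
  simp only [Finset.sum_const, Finset.card_univ, Fintype.card_fin, smul_eq_mul] at h1
  have h2 : a * (m * n) ≤ 2 * (a * finrank K U) := by
    calc a * (m * n) ≤ a * (2 * finrank K U) := Nat.mul_le_mul_left _ hdim
      _ = 2 * (a * finrank K U) := by ring
  have h3 : 2 ^ k * n ≤ (a + 1) * m * n := Nat.mul_le_mul_right _ ha2.le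
  have h4 : (a + 1) * m * n = a * (m * n) + k := by rw [hk]; ring
  have h5 : 2 ^ k * (4 * (r * t) + 1) ≤ 2 ^ k * n := Nat.mul_le_mul_left _ hcon
  have h6 : 2 ^ k * (4 * (r * t) + 1) = 2 * (2 ^ (k + 1) * (r * t)) + 2 ^ k := by
    rw [pow_succ]; ring
  have h7 : k < 2 ^ k := Nat.lt_two_pow_self
  omega

end Pool.Agent.Q10.SU
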